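import Pool.Agent.Q240.PG.Lines

/-!
# The lines outside the bad event
-/

namespace Pool.Agent.Q240.PG

open Finset

theorem io_snd (k : ℕ) (x t : ℤ) : (io k (x, t)).2 = (t : ZMod (md k ^ 3)) := rfl
theorem io_fst (k : ℕ) (x t : ℤ) : (io k (x, t)).1 = (x : ZMod (md k)) := rfl

/-- the number of the block does not change -/
theorem block_const (k : ℕ) (ω : Om) (x t : ℤ) (n : ℕ)
    (h : ∀ s < n, (ω k + io k (x, t + s)).2.val % md k ^ 2 ≠ 0) (s : ℕ) (hs : s < n) :
    (ω k + io k (x, t + s)).2.val / md k ^ 2 = (ω k + io k (x, t)).2.val / md k ^ 2 := by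
  induction s with
  | zero => simp
  | succ s ih =>
    rw [← ih (by omega)]
    have h1 := h (s + 1) hs
    have e1 : (ω k + io k (x, t + ((s + 1 : ℕ) : ℤ))).2 = (ω k + io k (x, t + s)).2 + 1 := by
      simp only [Prod.snd_add, io_snd]
      push_cast
      ring
    rw [e1] at h1 ⊢
    set v := (ω k + io k (x, t + s)).2 with hv
    have h2 : 1 < md k ^ 3 := by
      have := two_le_md k
      calc 1 < 2 ^ 3 := by norm_num
        _ ≤ md k ^ 3 := Nat.pow_le_pow_left this 3
    haveI : Fact (1 < md k ^ 3) := ⟨h2⟩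
    have h3 : (v + 1).val = if v.val + 1 < md k ^ 3 then v.val + 1 else 0 := by
      rw [ZMod.val_add, ZMod.val_one]
      split_ifs with h4
      · exact Nat.mod_eq_of_lt h4
      · have := v.val_lt
        have : v.val + 1 = md k ^ 3 := by omega
        rw [this, Nat.mod_self]
    rw [h3] at h1 ⊢
    split_ifs at h1 ⊢ with h4
    · rw [Nat.succ_div_of_not_dvd]
      intro h5
      exact h1 (Nat.mod_eq_zero_of_dvd h5)
    · simp at h1

/-- a column of the line -/
theorem exists_column (k : ℕ) (ω : Om) (x t : ℤ) (n : ℕ) (hn : 0 < n)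
    (h : ∀ s < n, (ω k + io k (x, t + s)).2.val % md k ^ 2 ≠ 0) :
    ∃ c < md k, ∀ s < n, on ω k (x + c, t + s) := by
  set B := (ω k + io k (x, t)).2.val / md k ^ 2 with hB
  have hBlt : B < md k := by
    rw [hB, Nat.div_lt_iff_lt_mul (pow_pos (md_pos k) 2)]
    have := (ω k + io k (x, t)).2.val_lt
    calc _ < md k ^ 3 := this
      _ = md k * md k ^ 2 := by ring
  refine ⟨((B : ZMod (md k)) - (ω k).1 - x).val, ZMod.val_lt _, fun s hs => ?_⟩
  have h1 := block_const k ω x t n h s hs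
  unfold on
  show (ω k + io k (x + (((B : ZMod (md k)) - (ω k).1 - x).val : ℕ), t + s)).1.val =
    (ω k + io k (x + (((B : ZMod (md k)) - (ω k).1 - x).val : ℕ), t + s)).2.val / md k ^ 2
  have e1 : (ω k + io k (x + (((B : ZMod (md k)) - (ω k).1 - x).val : ℕ), t + s)).1 = (B : ZMod (md k)) := by
    simp only [Prod.fst_add, io_fst]
    push_cast
    rw [ZMod.natCast_zmod_val]
    ring
  have e2 : (ω k + io k (x + (((B : ZMod (md k)) - (ω k).1 - x).val : ℕ), t + s)).2 =
      (ω k + io k (x, t + s)).2 := by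
    simp only [Prod.snd_add, io_snd]
  rw [e1, e2, h1, ZMod.val_natCast, Nat.mod_eq_of_lt hBlt]

open Classical in
/-- the number of the cells of a line of the scale `j` in a piece of a column -/
theorem card_on (j : ℕ) (ω : Om) (x a b : ℤ) (hab : a ≤ b) :
    (((Ico a b).filter fun s => on ω j (x, s)).card : ℝ) ≤ (b - a) * (1 / md j) + md j ^ 2 := by
  have hm : (0 : ℝ) < md j := by exact_mod_cast md_pos j
  have hN : (0 : ℤ) < ((md j ^ 3 : ℕ) : ℤ) := by exact_mod_cast pow_pos (md_pos j) 3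
  set X := (ω j + io j (x, 0)).1.val with hX
  let S : Finset (ZMod (md j ^ 3)) := Finset.univ.filter fun v => X = v.val / md j ^ 2
  have hS : S.card ≤ md j ^ 2 := by
    have : S.card ≤ (Finset.range (md j ^ 2)).card := by
      refine Finset.card_le_card_of_injOn (fun v => v.val % md j ^ 2) ?_ ?_
      · intro v _
        simp only [Finset.coe_range, Set.mem_Iio]
        exact Nat.mod_lt _ (pow_pos (md_pos j) 2)
      · intro v hv w hw hvw
        have hv' : X = v.val / md j ^ 2 := by simpa [S] using hv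
        have hw' : X = w.val / md j ^ 2 := by simpa [S] using hw
        have hvw' : v.val % md j ^ 2 = w.val % md j ^ 2 := hvw
        apply ZMod.val_injective
        rw [← Nat.div_add_mod v.val (md j ^ 2), ← Nat.div_add_mod w.val (md j ^ 2), ← hv', ← hw', hvw']
    simpa using this
  have h1 : ((Ico a b).filter fun s => on ω j (x, s)) ⊆
      S.biUnion fun v => (Ico a b).filter fun s : ℤ => s ≡ ((v - (ω j).2).val : ℤ) [ZMOD ((md j ^ 3 : ℕ) : ℤ)] := by
    intro s hs
    rw [Finset.mem_filter] at hs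
    rw [Finset.mem_biUnion]
    refine ⟨(ω j).2 + s, ?_, ?_⟩
    · have h2 : (ω j + io j (x, s)).1.val = (ω j + io j (x, s)).2.val / md j ^ 2 := hs.2
      simp only [S, Finset.mem_filter, Finset.mem_univ, true_and]
      exact h2
    · rw [Finset.mem_filter]
      refine ⟨hs.1, ?_⟩
      have e : (ω j).2 + (s : ZMod (md j ^ 3)) - (ω j).2 = (s : ZMod (md j ^ 3)) := by ring
      rw [e, ← ZMod.intCast_eq_intCast_iff, Int.cast_natCast, ZMod.natCast_zmod_val]
  have h2 : ∀ v : ZMod (md j ^ 3), (((Ico a b).filter fun s : ℤ => s ≡ ((v - (ω j).2).val : ℤ)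
      [ZMOD ((md j ^ 3 : ℕ) : ℤ)]).card : ℝ) ≤ (b - a) / (md j : ℝ) ^ 3 + 1 := by
    intro v
    have h3 := Int.Ico_filter_modEq_card a b hN ((v - (ω j).2).val : ℤ)
    have h4 : (((Ico a b).filter fun s : ℤ => s ≡ ((v - (ω j).2).val : ℤ)
      [ZMOD ((md j ^ 3 : ℕ) : ℤ)]).card : ℝ) = (((((Ico a b).filter fun s : ℤ => s ≡ ((v - (ω j).2).val : ℤ)
      [ZMOD ((md j ^ 3 : ℕ) : ℤ)]).card : ℕ) : ℤ) : ℝ) := by push_cast; rfl
    rw [h4, h3]
    push_cast
    have hb0 : (0 : ℝ) ≤ (b : ℝ) - a := by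
      have : (a : ℝ) ≤ b := by exact_mod_cast hab
      linarith
    refine max_le ?_ (by positivity)
    set w : ℝ := (((v - (ω j).2).val : ℕ) : ℝ) with hw
    have h5 := Int.ceil_lt_add_one (((b : ℚ) - ((v - (ω j).2).val : ℕ)) / ((md j : ℚ) ^ 3))
    have h6 := Int.le_ceil (((a : ℚ) - ((v - (ω j).2).val : ℕ)) / ((md j : ℚ) ^ 3))
    have h7 : ((⌈((b : ℚ) - ((v - (ω j).2).val : ℕ)) / ((md j : ℚ) ^ 3)⌉ : ℤ) : ℚ) -
        ((⌈((a : ℚ) - ((v - (ω j).2).val : ℕ)) / ((md j : ℚ) ^ 3)⌉ : ℤ) : ℚ) ≤ ((b : ℚ) - a) / (md j : ℚ) ^ 3 + 1 := by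
      have e : ((b : ℚ) - a) / (md j : ℚ) ^ 3 = ((b : ℚ) - ((v - (ω j).2).val : ℕ)) / ((md j : ℚ) ^ 3) -
        ((a : ℚ) - ((v - (ω j).2).val : ℕ)) / ((md j : ℚ) ^ 3) := by ring
      rw [e]
      linarith
    have h8 := (Rat.cast_le (K := ℝ)).2 h7
    push_cast at h8
    convert h8 using 2
  calc (((Ico a b).filter fun s => on ω j (x, s)).card : ℝ)
      ≤ ((S.biUnion fun v => (Ico a b).filter fun s : ℤ => s ≡ ((v - (ω j).2).val : ℤ) [ZMOD ((md j ^ 3 : ℕ) : ℤ)]).card : ℝ) := by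
        exact_mod_cast Finset.card_le_card h1
    _ ≤ ∑ v ∈ S, (((Ico a b).filter fun s : ℤ => s ≡ ((v - (ω j).2).val : ℤ) [ZMOD ((md j ^ 3 : ℕ) : ℤ)]).card : ℝ) := by
        exact_mod_cast Finset.card_biUnion_le
    _ ≤ ∑ v ∈ S, ((b - a) / (md j : ℝ) ^ 3 + 1) := Finset.sum_le_sum fun v _ => h2 v
    _ = S.card * ((b - a) / (md j : ℝ) ^ 3 + 1) := by rw [Finset.sum_const, nsmul_eq_mul]
    _ ≤ (md j : ℝ) ^ 2 * ((b - a) / (md j : ℝ) ^ 3 + 1) := by
        have hb0 : (0 : ℝ) ≤ (b : ℝ) - a := by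
          have : (a : ℝ) ≤ b := by exact_mod_cast hab
          linarith
        gcongr
        exact_mod_cast hS
    _ = (b - a) * (1 / md j) + md j ^ 2 := by
        field_simp

/-- a cell of a line of a scale smaller than `k` -/
def low (k : ℕ) (ω : Om) (z : ℤ × ℤ) : Prop := ∃ j < k, on ω j z

open Classical in
/-- the number of the cells of the lines of the smaller scales in a piece of a column -/
noncomputable def cnt (k : ℕ) (ω : Om) (x a b : ℤ) : ℕ := ((Ico a b).filter fun s => low k ω (x, s)).card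

theorem cnt_le (k : ℕ) (ω : Om) (x a b : ℤ) (hab : a ≤ b) :
    (cnt k ω x a b : ℝ) ≤ (b - a) / 32 + 2 * (pr k : ℝ) ^ 2 := by
  classical
  have h1 : ((Ico a b).filter fun s => low k ω (x, s)) ⊆
      (range k).biUnion fun j => (Ico a b).filter fun s => on ω j (x, s) := by
    intro s hs
    rw [Finset.mem_filter] at hs
    obtain ⟨h2, j, hj, h3⟩ := hs
    rw [Finset.mem_biUnion]
    exact ⟨j, Finset.mem_range.2 hj, Finset.mem_filter.2 ⟨h2, h3⟩⟩
  have hb0 : (0 : ℝ) ≤ (b : ℝ) - a := by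
    have : (a : ℝ) ≤ b := by exact_mod_cast hab
    linarith
  calc (cnt k ω x a b : ℝ) ≤ (((range k).biUnion fun j => (Ico a b).filter fun s => on ω j (x, s)).card : ℝ) := by
        unfold cnt
        exact_mod_cast Finset.card_le_card h1
    _ ≤ ∑ j ∈ range k, (((Ico a b).filter fun s => on ω j (x, s)).card : ℝ) := by
        exact_mod_cast Finset.card_biUnion_le
    _ ≤ ∑ j ∈ range k, ((b - a) * (1 / (md j : ℝ)) + (md j : ℝ) ^ 2) :=
        Finset.sum_le_sum fun j _ => card_on j ω x a b hab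
    _ = (b - a) * ∑ j ∈ range k, (1 / (md j : ℝ)) + ∑ j ∈ range k, (md j : ℝ) ^ 2 := by
        rw [Finset.sum_add_distrib, Finset.mul_sum]
    _ ≤ (b - a) * (1 / 32) + 2 * (pr k : ℝ) ^ 2 := by
        gcongr
        · exact sum_inv k
        · have := sum_sq k
          have h2 : ∑ j ∈ range k, md j ^ 2 ≤ 2 * pr k ^ 2 := by omega
          exact_mod_cast h2
    _ = _ := by ring

theorem cnt_self (k : ℕ) (ω : Om) (x a : ℤ) : cnt k ω x a a = 0 := by simp [cnt]

open Classical in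
theorem cnt_succ (k : ℕ) (ω : Om) (x a b : ℤ) (hab : a ≤ b) :
    cnt k ω x a (b + 1) = cnt k ω x a b + if low k ω (x, b) then 1 else 0 := by
  unfold cnt
  have h : Ico a (b + 1) = insert b (Ico a b) := by
    ext s; simp only [Finset.mem_Ico, Finset.mem_insert]; omega
  rw [h, Finset.filter_insert]
  split_ifs with h1
  · rw [Finset.card_insert_of_notMem]
    simp
  · simp

end Pool.Agent.Q240.PG
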