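import Mathlib

/-!
# Percolation games on the square lattice

The definitions of the problem: percolation games, their strategies, the value of the game
with `n` stages, oriented games and games with a limit value.
-/

namespace Pool.Agent.Q240.PG

open MeasureTheory Filter Topology

/-- A percolation game on `ℤ²`. -/
structure PercolationGame where
  /-- the actions of Player 1 -/
  I : Type
  /-- the actions of Player 2 -/
  J : Type
  finI : Finite I
  neI : Nonempty I
  finJ : Finite J
  neJ : Nonempty J
  /-- the probability space -/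
  Ω : Type
  mΩ : MeasurableSpace Ω
  /-- the probability measure -/
  P : Measure Ω
  prob : IsProbabilityMeasure P
  /-- the shifts -/
  τ : ℤ × ℤ → Ω → Ω
  τ_mp : ∀ z, MeasurePreserving (τ z) P P
  τ_add : ∀ z z' ω, τ (z + z') ω = τ z (τ z' ω)
  /-- ergodicity -/
  ergodic : ∀ F : Set Ω, MeasurableSet F → (∀ z, τ z '' F = F) → P F = 0 ∨ P F = 1
  /-- the payoffs of Player 1 -/
  g : Ω → ℤ × ℤ → I → J → ℝ
  g_meas : ∀ z i j, Measurable fun ω => g ω z i j
  g_bdd : ∃ M : ℝ, ∀ ω z i j, |g ω z i j| ≤ M
  g_stat : ∀ ω z z' i j, g (τ z ω) z' i j = g ω (z + z') i j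
  /-- the transitions -/
  q : I → J → ℤ × ℤ

namespace PercolationGame

variable (G : PercolationGame)

/-- The histories: the lists of the past states and actions, the first stage being the head
of the list. -/
abbrev Hist := List ((ℤ × ℤ) × G.I × G.J)

/-- A strategy of Player 1: the action as a function of the past and of the current state. -/
abbrev Strat1 := G.Hist → ℤ × ℤ → G.I

/-- A strategy of Player 2: the action as a function of the past, of the current state and of
the current action of Player 1. -/
abbrev Strat2 := G.Hist → ℤ × ℤ → G.I → G.J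

/-- The total payoff of the next `n` stages, when the past is `h` and the current state is
`z`. -/
noncomputable def play (ω : G.Ω) (σ : G.Strat1) (ρ : G.Strat2) : ℕ → G.Hist → ℤ × ℤ → ℝ
  | 0, _, _ => 0
  | n + 1, h, z =>
      G.g ω z (σ h z) (ρ h z (σ h z)) +
        play ω σ ρ n (h ++ [(z, σ h z, ρ h z (σ h z))]) (z + G.q (σ h z) (ρ h z (σ h z)))

/-- The value of the game with `n` stages and the initial state `z`: the maximin over the
strategies of the mean payoff. -/
noncomputable def value (n : ℕ) (ω : G.Ω) (z : ℤ × ℤ) : ℝ :=
  ⨆ σ : G.Strat1, ⨅ ρ : G.Strat2, G.play ω σ ρ n [] z / n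

/-- The game is oriented: all transitions have a positive scalar product with some fixed
vector. -/
def Oriented : Prop :=
  ∃ u : ℤ × ℤ, ∀ i j, 0 < (G.q i j).1 * u.1 + (G.q i j).2 * u.2

/-- The game has a limit value. -/
def HasLimitValue : Prop :=
  ∀ z : ℤ × ℤ, ∀ᵐ ω ∂G.P, ∃ l : ℝ, Tendsto (fun n => G.value n ω z) atTop (𝓝 l)

end PercolationGame

end Pool.Agent.Q240.PG
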