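import Pool.Agent.Q240.PG.Seq

/-!
# The environment: a product of finite groups
-/

namespace Pool.Agent.Q240.PG

open MeasureTheory Filter Topology Finset

/-- the phases of the scale `k` -/
abbrev Gk (k : ℕ) : Type := ZMod (md k) × ZMod (md k ^ 3)

instance (k : ℕ) : MeasurableSpace (Gk k) := ⊤
instance (k : ℕ) : DiscreteMeasurableSpace (Gk k) := ⟨fun _ => trivial⟩

/-- the probability space -/
abbrev Om : Type := ∀ k : ℕ, Gk k

/-- the uniform law on the phases -/
noncomputable def un (k : ℕ) : Measure (Gk k) := (PMF.uniformOfFintype (Gk k)).toMeasure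

instance (k : ℕ) : IsProbabilityMeasure (un k) := by unfold un; infer_instance

theorem un_apply (k : ℕ) (S : Finset (Gk k)) :
    un k (S : Set (Gk k)) = (S.card : ENNReal) / ((md k : ENNReal) * (md k : ENNReal) ^ 3) := by
  unfold un
  rw [PMF.toMeasure_uniformOfFintype_apply _ (MeasurableSet.of_discrete)]
  simp [Fintype.card_prod, ZMod.card]

/-- the law -/
noncomputable def Pm : Measure Om := Measure.infinitePi un

instance : IsProbabilityMeasure Pm := by unfold Pm; infer_instance

/-- the shift of the phases -/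
def io (k : ℕ) (z : ℤ × ℤ) : Gk k := ((z.1 : ZMod (md k)), (z.2 : ZMod (md k ^ 3)))

theorem io_add (k : ℕ) (z z' : ℤ × ℤ) : io k (z + z') = io k z + io k z' := by
  simp [io]

theorem io_zero (k : ℕ) : io k 0 = 0 := by simp [io]

/-- the shifts -/
def tau (z : ℤ × ℤ) (ω : Om) : Om := fun k => ω k + io k z

theorem tau_add (z z' : ℤ × ℤ) (ω : Om) : tau (z + z') ω = tau z (tau z' ω) := by
  funext k
  simp only [tau, io_add]
  abel

theorem tau_zero (ω : Om) : tau 0 ω = ω := by
  funext k
  simp [tau, io_zero]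

theorem tau_neg (z : ℤ × ℤ) (ω : Om) : tau z (tau (-z) ω) = ω := by
  rw [← tau_add, add_neg_cancel, tau_zero]

theorem tau_neg' (z : ℤ × ℤ) (ω : Om) : tau (-z) (tau z ω) = ω := by
  rw [← tau_add, neg_add_cancel, tau_zero]

theorem measurable_tau (z : ℤ × ℤ) : Measurable (tau z) := by
  refine measurable_pi_iff.2 fun k => ?_
  exact (measurable_of_countable (fun a : Gk k => a + io k z)).comp (measurable_pi_apply k)

theorem un_shift (k : ℕ) (S : Set (Gk k)) (c : Gk k) : un k ((fun a => a + c) ⁻¹' S) = un k S := by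
  classical
  have h1 : ((fun a => a + c) ⁻¹' S) = ((Finset.univ.filter fun a : Gk k => a + c ∈ S : Finset (Gk k)) : Set (Gk k)) := by
    ext a; simp
  have h2 : S = ((Finset.univ.filter fun a : Gk k => a ∈ S : Finset (Gk k)) : Set (Gk k)) := by
    ext a; simp
  rw [h1, un_apply]
  conv_rhs => rw [h2, un_apply]
  congr 2
  refine Finset.card_bij (fun a _ => a + c) ?_ ?_ ?_
  · intro a ha; simpa using ha
  · intro a _ b _ h; simpa using h
  · intro b hb
    refine ⟨b - c, ?_, by simp⟩
    simpa using hb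

theorem mp_tau (z : ℤ × ℤ) : MeasurePreserving (tau z) Pm Pm := by
  refine ⟨measurable_tau z, ?_⟩
  unfold Pm
  refine Measure.eq_infinitePi _ ?_
  intro s t ht
  rw [Measure.map_apply (measurable_tau z) (MeasurableSet.pi s.countable_toSet fun i _ => ht i)]
  have h1 : tau z ⁻¹' (Set.pi s t) = Set.pi s (fun k => (fun a => a + io k z) ⁻¹' t k) := by
    ext ω; simp [tau, Set.mem_pi]
  rw [h1, Measure.infinitePi_pi _ (fun i _ => MeasurableSet.of_discrete)]
  exact Finset.prod_congr rfl fun k _ => un_shift k _ _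

/-- the atoms of the first `K` scales -/
def cyl (K : ℕ) (a : Om) : Set Om := {ω | ∀ k < K, ω k = a k}

theorem measurableSet_cyl (K : ℕ) (a : Om) : MeasurableSet (cyl K a) := by
  have : cyl K a = ⋂ k ∈ Set.Iio K, (fun ω : Om => ω k) ⁻¹' {a k} := by
    ext ω; simp [cyl]
  rw [this]
  exact MeasurableSet.biInter (Set.to_countable _) fun k _ =>
    measurable_pi_apply k (MeasurableSet.of_discrete)

/-- transitivity on the atoms -/
theorem exists_shift (K : ℕ) (a b : Om) : ∃ z, ∀ k < K, a k + io k z = b k := by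
  classical
  have h1 : Set.Pairwise (↑(Finset.range K)) (Function.onFun Nat.Coprime md) := by
    intro i _ j _ hij
    exact md_coprime' hij
  have h2 : Set.Pairwise (↑(Finset.range K)) (Function.onFun Nat.Coprime (fun k => md k ^ 3)) := by
    intro i _ j _ hij
    exact Nat.Coprime.pow 3 3 (md_coprime' hij)
  obtain ⟨x, hx⟩ := Nat.chineseRemainderOfFinset (fun k => (b k - a k).1.val) md (Finset.range K)
    (fun k _ => (md_pos k).ne') h1
  obtain ⟨t, ht⟩ := Nat.chineseRemainderOfFinset (fun k => (b k - a k).2.val) (fun k => md k ^ 3)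
    (Finset.range K) (fun k _ => (pow_pos (md_pos k) 3).ne') h2
  refine ⟨((x : ℤ), (t : ℤ)), fun k hk => ?_⟩
  have hx' := hx k (Finset.mem_range.2 hk)
  have ht' := ht k (Finset.mem_range.2 hk)
  have e1 : (x : ZMod (md k)) = (b k - a k).1 := by
    have := (ZMod.natCast_eq_natCast_iff _ _ _).2 hx'
    rw [this, ZMod.natCast_zmod_val]
  have e2 : (t : ZMod (md k ^ 3)) = (b k - a k).2 := by
    have := (ZMod.natCast_eq_natCast_iff _ _ _).2 ht'
    rw [this, ZMod.natCast_zmod_val]
  ext
  · simp [io, e1]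
  · simp [io, e2]

theorem tau_preimage_cyl (K : ℕ) (a b : Om) (z : ℤ × ℤ) (h : ∀ k < K, a k + io k z = b k) :
    tau z ⁻¹' cyl K b = cyl K a := by
  ext ω
  simp only [cyl, Set.mem_preimage, Set.mem_ofPred_eq, tau]
  refine forall₂_congr fun k hk => ?_
  rw [← h k hk, add_left_inj]

/-- all atoms have the same intersection with an invariant set -/
theorem cyl_eq {F : Set Om} (hF : ∀ z, tau z '' F = F) (hFm : MeasurableSet F) (K : ℕ) (a b : Om) :
    Pm (F ∩ cyl K a) = Pm (F ∩ cyl K b) := by
  obtain ⟨z, hz⟩ := exists_shift K a b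
  have h1 : tau z ⁻¹' F = F := by
    ext ω
    constructor
    · intro h
      have : tau (-z) (tau z ω) ∈ tau (-z) '' F := ⟨_, h, rfl⟩
      rwa [tau_neg', hF] at this
    · intro h
      have : tau z ω ∈ tau z '' F := ⟨_, h, rfl⟩
      rwa [hF] at this
  rw [← (mp_tau z).measure_preimage (hFm.inter (measurableSet_cyl K b)).nullMeasurableSet,
    Set.preimage_inter, h1, tau_preimage_cyl K a b z hz]

/-- the finitely many atoms of the first `K` scales -/
theorem sum_cyl (K : ℕ) : ∃ S : Finset Om, 0 < S.card ∧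
    (∀ F : Set Om, MeasurableSet F → Pm F = ∑ a ∈ S, Pm (F ∩ cyl K a)) := by
  classical
  let e : (∀ k : Fin K, Gk k) → Om := fun f k => if h : k < K then f ⟨k, h⟩ else 0
  have he : ∀ f (k : Fin K), e f k = f k := by
    intro f k; simp [e]
  refine ⟨Finset.univ.image e, Finset.card_pos.2 (Finset.Nonempty.image ⟨0, Finset.mem_univ _⟩ _), ?_⟩
  intro F hF
  have h1 : F = ⋃ a ∈ Finset.univ.image e, F ∩ cyl K a := by
    ext ω
    simp only [Set.mem_iUnion, Set.mem_inter_iff, exists_prop, Finset.mem_image, Finset.mem_univ, true_and]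
    constructor
    · intro h
      refine ⟨e (fun k => ω k), ⟨fun k => ω k, rfl⟩, h, ?_⟩
      intro k hk
      simp [e, hk]
    · rintro ⟨a, _, h, _⟩
      exact h
  conv_lhs => rw [h1]
  rw [measure_biUnion_finset]
  · intro a ha b hb hab
    rw [Function.onFun, Set.disjoint_left]
    rintro ω ⟨_, h2⟩ ⟨_, h3⟩
    apply hab
    simp only [Finset.coe_image, Finset.coe_univ, Set.image_univ, Set.mem_range] at ha hb
    obtain ⟨f, rfl⟩ := ha
    obtain ⟨g, rfl⟩ := hb
    congr 1
    funext k
    have h4 := h2 k k.2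
    have h5 := h3 k k.2
    rw [he] at h4 h5
    rw [← h4, ← h5]
  · intro a _
    exact hF.inter (measurableSet_cyl K a)

theorem indep_cyl {F : Set Om} (hF : ∀ z, tau z '' F = F) (hFm : MeasurableSet F) (K : ℕ) (b : Om) :
    Pm (F ∩ cyl K b) = Pm F * Pm (cyl K b) := by
  obtain ⟨S, hS, hsum⟩ := sum_cyl K
  have h1 : Pm F = S.card * Pm (F ∩ cyl K b) := by
    rw [hsum F hFm, Finset.sum_congr rfl fun a _ => cyl_eq hF hFm K a b, Finset.sum_const, nsmul_eq_mul]
  have h2 : (1 : ENNReal) = S.card * Pm (cyl K b) := by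
    have h3 := hsum Set.univ MeasurableSet.univ
    have h4 : ∀ z, tau z '' Set.univ = Set.univ := by
      intro z
      rw [Set.image_univ]
      exact Set.range_eq_univ.2 fun ω => ⟨tau (-z) ω, tau_neg z ω⟩
    rw [Finset.sum_congr rfl fun a _ => cyl_eq h4 MeasurableSet.univ K a b, Finset.sum_const,
      nsmul_eq_mul, Set.univ_inter, measure_univ] at h3
    exact h3
  have hc : (S.card : ENNReal) ≠ 0 := by exact_mod_cast hS.ne'
  have hc' : (S.card : ENNReal) ≠ ⊤ := ENNReal.natCast_ne_top _
  have h3 : Pm (cyl K b) = (S.card : ENNReal)⁻¹ := by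
    rw [← ENNReal.eq_inv_of_mul_eq_one_left]
    rw [mul_comm]; exact h2.symm
  rw [h1, h3, mul_comm (S.card : ENNReal), mul_assoc, ENNReal.mul_inv_cancel hc hc', mul_one]

/-- ergodicity -/
theorem ergodic_tau (F : Set Om) (hFm : MeasurableSet F) (hF : ∀ z, tau z '' F = F) :
    Pm F = 0 ∨ Pm F = 1 := by
  -- the family of all atoms generates the σ-algebra
  let C : Set (Set Om) := {s | ∃ K a, s = cyl K a} ∪ {∅}
  have hgen : (MeasurableSpace.pi : MeasurableSpace Om) = MeasurableSpace.generateFrom C := by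
    apply le_antisymm
    · refine iSup_le fun k => ?_
      rw [MeasurableSpace.comap_le_iff_le_map]
      intro t _
      show MeasurableSet[MeasurableSpace.generateFrom C] ((fun ω : Om => ω k) ⁻¹' t)
      obtain ⟨S, hS⟩ : ∃ S : Set (∀ i : Fin (k + 1), Gk i), S = {f | f ⟨k, by omega⟩ ∈ t} := ⟨_, rfl⟩
      let e : (∀ i : Fin (k + 1), Gk i) → Om := fun f i => if h : i < k + 1 then f ⟨i, h⟩ else 0
      have h1 : ((fun ω : Om => ω k) ⁻¹' t) = ⋃ f ∈ S, cyl (k + 1) (e f) := by
        ext ω
        simp only [Set.mem_preimage, Set.mem_iUnion, exists_prop]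
        constructor
        · intro h
          refine ⟨fun i => ω i, by rw [hS]; exact h, ?_⟩
          intro i hi
          have h5 : e (fun i => ω i) i = ω i := dif_pos hi
          exact h5.symm
        · rintro ⟨f, hf, h⟩
          have := h k (by omega)
          simp only [e, show k < k + 1 by omega, dite_true] at this
          rw [this]
          rw [hS] at hf
          exact hf
      rw [h1]
      refine MeasurableSet.biUnion (Set.to_countable _) fun f _ => ?_
      exact MeasurableSpace.measurableSet_generateFrom (Or.inl ⟨_, _, rfl⟩)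
    · refine MeasurableSpace.generateFrom_le ?_
      rintro s (⟨K, a, rfl⟩ | rfl)
      · exact measurableSet_cyl K a
      · exact MeasurableSet.empty
  have hpi : IsPiSystem C := by
    rintro s (⟨K, a, rfl⟩ | rfl) t (⟨L, b, rfl⟩ | rfl) hne
    · wlog h : K ≤ L generalizing K L a b
      · rw [Set.inter_comm] at hne ⊢
        exact this L b K a hne (by omega)
      left
      refine ⟨L, b, ?_⟩
      obtain ⟨ω, h1, h2⟩ := hne
      refine Set.inter_eq_right.2 ?_
      intro ω' h3 k hk
      rw [h3 k (by omega), ← h2 k (by omega), h1 k hk]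
    · simp at hne
    · simp at hne
    · simp at hne
  have key : ∀ s, MeasurableSet s → Pm (F ∩ s) = Pm F * Pm s := by
    refine MeasurableSpace.induction_on_inter (C := fun s _ => Pm (F ∩ s) = Pm F * Pm s) hgen hpi ?_ ?_ ?_ ?_
    · simp
    · rintro t (⟨K, a, rfl⟩ | rfl)
      · exact indep_cyl hF hFm K a
      · simp
    · intro t ht h1
      have h2 : F ∩ tᶜ = F \ (F ∩ t) := by
        ext ω; simp
      rw [h2, measure_sdiff Set.inter_subset_left (hFm.inter ht).nullMeasurableSet (measure_ne_top _ _),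
        h1, prob_compl_eq_one_sub ht, ENNReal.mul_sub (fun _ _ => measure_ne_top _ _), mul_one]
    · intro f hd hm h1
      rw [Set.inter_iUnion, measure_iUnion, measure_iUnion hd hm, ← ENNReal.tsum_mul_left]
      · exact tsum_congr h1
      · intro i j hij
        exact (hd hij).mono Set.inter_subset_right Set.inter_subset_right
      · exact fun i => hFm.inter (hm i)
  have h := key F hFm
  rw [Set.inter_self] at h
  rcases eq_or_ne (Pm F) 0 with h0 | h0
  · exact Or.inl h0
  · right
    have h2 : Pm F * 1 = Pm F * Pm F := by rw [mul_one]; exact h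
    exact ((ENNReal.mul_right_inj h0 (measure_ne_top _ _)).1 h2).symm

end Pool.Agent.Q240.PG
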