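import Pool.Agent.Q240.PG.Column
import Pool.Agent.Q240.PG.Defs

/-!
# The game without a limit value
-/

namespace Pool.Agent.Q240.PG

open MeasureTheory Filter Topology Finset

/-- `k` is the largest scale with a line through `z` -/
def top (ω : Om) (z : ℤ × ℤ) (k : ℕ) : Prop := on ω k z ∧ ∀ j > k, ¬ on ω j z

theorem top_tau (ω : Om) (z z' : ℤ × ℤ) (k : ℕ) : top (tau z ω) z' k ↔ top ω (z + z') k := by
  unfold top
  simp only [on_tau]

/-- the cell `z` is good for Player 1 -/
def plus (ω : Om) (z : ℤ × ℤ) : Prop := ∃ k, Even k ∧ top ω z k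

/-- the cell `z` is good for Player 2 -/
def minus (ω : Om) (z : ℤ × ℤ) : Prop := ∃ k, ¬ Even k ∧ top ω z k

theorem top_unique {ω : Om} {z : ℤ × ℤ} {k l : ℕ} (h : top ω z k) (h' : top ω z l) : k = l := by
  rcases lt_trichotomy k l with h1 | h1 | h1
  · exact absurd h'.1 (h.2 l h1)
  · exact h1
  · exact absurd h.1 (h'.2 k h1)

theorem measurableSet_on (k : ℕ) (z : ℤ × ℤ) : MeasurableSet {ω : Om | on ω k z} := by
  have : {ω : Om | on ω k z} = (fun ω : Om => ω k) ⁻¹' {a | a + io k z ∈ act k} := rfl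
  rw [this]
  exact measurable_pi_apply k MeasurableSet.of_discrete

theorem measurableSet_top (k : ℕ) (z : ℤ × ℤ) : MeasurableSet {ω : Om | top ω z k} := by
  have : {ω : Om | top ω z k} = {ω : Om | on ω k z} ∩ ⋂ j ∈ Set.Ioi k, {ω : Om | on ω j z}ᶜ := by
    ext ω; simp [top]
  rw [this]
  exact (measurableSet_on k z).inter (MeasurableSet.biInter (Set.to_countable _) fun j _ =>
    (measurableSet_on j z).compl)

theorem measurableSet_plus (z : ℤ × ℤ) : MeasurableSet {ω : Om | plus ω z} := by
  have : {ω : Om | plus ω z} = ⋃ k ∈ {k : ℕ | Even k}, {ω : Om | top ω z k} := by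
    ext ω; simp [plus]
  rw [this]
  exact MeasurableSet.biUnion (Set.to_countable _) fun k _ => measurableSet_top k z

theorem measurableSet_minus (z : ℤ × ℤ) : MeasurableSet {ω : Om | minus ω z} := by
  have : {ω : Om | minus ω z} = ⋃ k ∈ {k : ℕ | ¬ Even k}, {ω : Om | top ω z k} := by
    ext ω; simp [minus]
  rw [this]
  exact MeasurableSet.biUnion (Set.to_countable _) fun k _ => measurableSet_top k z

open Classical in
/-- the payoffs -/
noncomputable def gg (ω : Om) (z : ℤ × ℤ) (i j : Bool) : ℝ :=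
  if plus ω z then 1 else if minus ω z then -1 else (if i then 1 else 0) - (if j then 1 else 0)

theorem gg_abs (ω : Om) (z : ℤ × ℤ) (i j : Bool) : |gg ω z i j| ≤ 1 := by
  unfold gg
  split_ifs <;> norm_num

theorem gg_tau (ω : Om) (z z' : ℤ × ℤ) (i j : Bool) : gg (tau z ω) z' i j = gg ω (z + z') i j := by
  have h1 : plus (tau z ω) z' ↔ plus ω (z + z') := by
    unfold plus
    exact exists_congr fun k => and_congr Iff.rfl (top_tau ω z z' k)
  have h2 : minus (tau z ω) z' ↔ minus ω (z + z') := by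
    unfold minus
    exact exists_congr fun k => and_congr Iff.rfl (top_tau ω z z' k)
  unfold gg
  by_cases h3 : plus ω (z + z')
  · rw [if_pos h3, if_pos (h1.2 h3)]
  · rw [if_neg h3, if_neg (fun h => h3 (h1.1 h))]
    by_cases h4 : minus ω (z + z')
    · rw [if_pos h4, if_pos (h2.2 h4)]
    · rw [if_neg h4, if_neg (fun h => h4 (h2.1 h))]

/-- the transitions: a step to the right if both players want it -/
def qq (i j : Bool) : ℤ × ℤ := (if i && j then 1 else 0, 1)

/-- the game -/
noncomputable def game : PercolationGame where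
  I := Bool
  J := Bool
  finI := inferInstance
  neI := inferInstance
  finJ := inferInstance
  neJ := inferInstance
  Ω := Om
  mΩ := inferInstance
  P := Pm
  prob := inferInstance
  τ := tau
  τ_mp := mp_tau
  τ_add := tau_add
  ergodic := ergodic_tau
  g := gg
  g_meas := by
    intro z i j
    classical
    unfold gg
    exact Measurable.ite (measurableSet_plus z) measurable_const
      (Measurable.ite (measurableSet_minus z) measurable_const measurable_const)
  g_bdd := ⟨1, fun ω z i j => gg_abs ω z i j⟩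
  g_stat := by
    intro ω z z' i j
    exact gg_tau ω z z' i j
  q := qq

theorem game_oriented : game.Oriented := by
  refine ⟨(0, 1), fun i j => ?_⟩
  show 0 < (qq i j).1 * 0 + (qq i j).2 * 1
  simp [qq]

/-- the histories -/
abbrev Hi := List ((ℤ × ℤ) × Bool × Bool)

/-- the total payoff of the next `n` stages -/
noncomputable def pl (ω : Om) (σ : Hi → ℤ × ℤ → Bool) (ρ : Hi → ℤ × ℤ → Bool → Bool) : ℕ → Hi → ℤ × ℤ → ℝ
  | 0, _, _ => 0
  | n + 1, h, z =>
      gg ω z (σ h z) (ρ h z (σ h z)) +
        pl ω σ ρ n (h ++ [(z, σ h z, ρ h z (σ h z))]) (z + qq (σ h z) (ρ h z (σ h z)))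

theorem game_play (ω : Om) (σ : Hi → ℤ × ℤ → Bool) (ρ : Hi → ℤ × ℤ → Bool → Bool) (n : ℕ) :
    ∀ (h : Hi) (z : ℤ × ℤ), game.play ω σ ρ n h z = pl ω σ ρ n h z := by
  induction n with
  | zero => intro h z; rfl
  | succ n ih =>
    intro h z
    have := ih (h ++ [(z, σ h z, ρ h z (σ h z))]) (z + qq (σ h z) (ρ h z (σ h z)))
    rw [pl, ← this]
    rfl

theorem pl_abs (ω : Om) (σ : Hi → ℤ × ℤ → Bool) (ρ : Hi → ℤ × ℤ → Bool → Bool) (n : ℕ) :
    ∀ (h : Hi) (z : ℤ × ℤ), |pl ω σ ρ n h z| ≤ n := by
  induction n with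
  | zero => intro h z; simp [pl]
  | succ n ih =>
    intro h z
    rw [pl]
    refine (abs_add_le _ _).trans ?_
    push_cast
    have h1 := gg_abs ω z (σ h z) (ρ h z (σ h z))
    have h2 := ih (h ++ [(z, σ h z, ρ h z (σ h z))]) (z + qq (σ h z) (ρ h z (σ h z)))
    linarith

theorem cnt_le' (ω : Om) (k : ℕ) (t0 : ℤ) (x : ℤ) (a b : ℕ) (hab : a ≤ b) :
    (cnt k ω x (t0 + a) (t0 + b) : ℝ) ≤ ((b : ℝ) - a) / 32 + 2 * (pr k : ℝ) ^ 2 := by
  have := cnt_le k ω x (t0 + a) (t0 + b) (by omega)
  push_cast at this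
  have e : (t0 : ℝ) + b - (t0 + a) = (b : ℝ) - a := by ring
  rwa [e] at this

/-! ### Player 1 at an even scale -/

/-- the strategy of Player 1: to go to the column `c` and to stay there -/
def strat1 (c : ℤ) : Hi → ℤ × ℤ → Bool := fun _ z => decide (z.1 ≠ c)

/-- the strategy of Player 2: to go to the column `c` and to stay there -/
def strat2 (c : ℤ) : Hi → ℤ × ℤ → Bool → Bool := fun _ z _ => decide (z.1 ≠ c)

theorem play_at_column (ω : Om) (k : ℕ) (x0 t0 c : ℤ) (n : ℕ) (hk : Even k)
    (hon : ∀ s : ℕ, s < n → on ω k (c, t0 + s))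
    (hhigh : ∀ j > k, ∀ x : ℤ, x0 ≤ x → x ≤ c → ∀ s : ℕ, s < n → ¬ on ω j (x, t0 + s))
    (hx : x0 ≤ c) (ρ : Hi → ℤ × ℤ → Bool → Bool) (r : ℕ) :
    ∀ (h : Hi) (s : ℕ), s + r = n → pl ω (strat1 c) ρ r h (c, t0 + s) = r := by
  induction r with
  | zero => intro h s _; simp [pl]
  | succ r ih =>
    intro h s hs
    rw [pl]
    have h1 : strat1 c h (c, t0 + s) = false := by simp [strat1]
    have hp : plus ω (c, t0 + s) := ⟨k, hk, hon s (by omega), fun j hj => hhigh j hj c hx le_rfl s (by omega)⟩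
    have h2 : ∀ i j, gg ω (c, t0 + s) i j = 1 := by
      intro i j
      unfold gg
      rw [if_pos hp]
    have h3 : ∀ j, (c, t0 + (s : ℤ)) + qq false j = (c, t0 + ((s + 1 : ℕ) : ℤ)) := by
      intro j
      simp [qq, add_assoc]
    rw [h2, h1, h3, ih _ (s + 1) (by omega)]
    push_cast
    ring

theorem play_at_column' (ω : Om) (k : ℕ) (x0 t0 c : ℤ) (n : ℕ) (hk : ¬ Even k)
    (hon : ∀ s : ℕ, s < n → on ω k (c, t0 + s))
    (hhigh : ∀ j > k, ∀ x : ℤ, x0 ≤ x → x ≤ c → ∀ s : ℕ, s < n → ¬ on ω j (x, t0 + s))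
    (hx : x0 ≤ c) (σ : Hi → ℤ × ℤ → Bool) (r : ℕ) :
    ∀ (h : Hi) (s : ℕ), s + r = n → pl ω σ (strat2 c) r h (c, t0 + s) = - (r : ℝ) := by
  induction r with
  | zero => intro h s _; simp [pl]
  | succ r ih =>
    intro h s hs
    rw [pl]
    have h1 : ∀ i, strat2 c h (c, t0 + s) i = false := by intro i; simp [strat2]
    have htop : top ω (c, t0 + s) k := ⟨hon s (by omega), fun j hj => hhigh j hj c hx le_rfl s (by omega)⟩
    have hm : minus ω (c, t0 + s) := ⟨k, hk, htop⟩
    have hp : ¬ plus ω (c, t0 + s) := by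
      rintro ⟨l, hl, hl'⟩
      exact hk (top_unique htop hl' ▸ hl)
    have h2 : ∀ i j, gg ω (c, t0 + s) i j = -1 := by
      intro i j
      unfold gg
      rw [if_neg hp, if_pos hm]
    have h3 : ∀ i, (c, t0 + (s : ℤ)) + qq i false = (c, t0 + ((s + 1 : ℕ) : ℤ)) := by
      intro i
      simp [qq, add_assoc]
    rw [h2, h1, h3, ih _ (s + 1) (by omega)]
    push_cast
    ring

open Classical in
theorem play_ge (ω : Om) (k : ℕ) (x0 t0 c : ℤ) (n : ℕ) (hk : Even k)
    (hon : ∀ s : ℕ, s < n → on ω k (c, t0 + s))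
    (hhigh : ∀ j > k, ∀ x : ℤ, x0 ≤ x → x ≤ c → ∀ s : ℕ, s < n → ¬ on ω j (x, t0 + s))
    (ρ : Hi → ℤ × ℤ → Bool → Bool) (r : ℕ) :
    ∀ (h : Hi) (s a : ℕ) (x : ℤ), s + r = n → a ≤ s → x0 ≤ x → x ≤ c →
      (r : ℝ) - (c - x) - 2 * (((n : ℝ) - a) / 32 + ((c : ℝ) - x + 1) * (2 * (pr k : ℝ) ^ 2) - cnt k ω x (t0 + a) (t0 + s))
        ≤ pl ω (strat1 c) ρ r h (x, t0 + s) := by
  have hK : (0 : ℝ) ≤ 2 * (pr k : ℝ) ^ 2 := by positivity
  have hcnt := cnt_le' ω k t0
  induction r with
  | zero =>
    intro h s a x hs ha hx0 hxc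
    have h1 := hcnt x a s ha
    have h2 : (x : ℝ) ≤ c := by exact_mod_cast hxc
    have h3 : (s : ℝ) = n := by exact_mod_cast (by omega : s = n)
    rw [h3] at h1
    simp only [pl]
    rw [Nat.cast_zero]
    nlinarith [mul_nonneg (sub_nonneg.2 h2) hK]
  | succ r ih =>
    intro h s a x hs ha hx0 hxc
    have h1 := hcnt x a (s + 1) (by omega)
    have h1' := hcnt x a s ha
    have h2 : (x : ℝ) ≤ c := by exact_mod_cast hxc
    have h3 : (s : ℝ) + (r + 1) = n := by exact_mod_cast hs
    rcases eq_or_lt_of_le hxc with hxe | hxlt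
    · subst hxe
      rw [play_at_column ω k x0 t0 x n hk hon hhigh hx0 ρ (r + 1) h s hs]
      push_cast
      have h4 : ((s : ℝ) - a) / 32 ≤ ((n : ℝ) - a) / 32 := by
        have : (0 : ℝ) ≤ r := by positivity
        linarith
      nlinarith
    · have hsucc := cnt_succ k ω x (t0 + a) (t0 + s) (by omega)
      rw [add_assoc] at hsucc
      have hcast : (((s : ℕ) : ℤ) + 1) = ((s + 1 : ℕ) : ℤ) := by push_cast; ring
      rw [hcast] at hsucc
      set b : ℕ := if low k ω (x, t0 + s) then 1 else 0 with hb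
      have hb01 : (0 : ℝ) ≤ b := by positivity
      rw [pl]
      have hi : strat1 c h (x, t0 + s) = true := by
        simp [strat1, hxlt.ne]
      rw [hi]
      have hg : ∀ j : Bool, (if j = true then (0 : ℝ) else 1) - 2 * b ≤ gg ω (x, t0 + s) true j := by
        intro j
        unfold gg
        by_cases hp : plus ω (x, t0 + s)
        · rw [if_pos hp]
          split_ifs <;> linarith
        · rw [if_neg hp]
          by_cases hm : minus ω (x, t0 + s)
          · rw [if_pos hm]
            have hlow : low k ω (x, t0 + s) := by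
              obtain ⟨l, hl, hl1, hl2⟩ := hm
              refine ⟨l, ?_, hl1⟩
              by_contra hlk
              rcases Nat.lt_or_ge k l with h5 | h5
              · exact hhigh l h5 x hx0 hxc s (by omega) hl1
              · have : l = k := by omega
                exact hl (this ▸ hk)
            rw [hb, if_pos hlow]
            split_ifs <;> norm_num
          · rw [if_neg hm]
            cases j <;> simp
      rcases hj : ρ h (x, t0 + s) true with _ | _
      · have hg' := hg false
        have h4 : (x, t0 + (s : ℤ)) + qq true false = (x, t0 + ((s + 1 : ℕ) : ℤ)) := by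
          simp [qq, add_assoc]
        rw [h4]
        have h5 := ih (h ++ [((x, t0 + (s : ℤ)), true, false)]) (s + 1) a x
          (by omega) (by omega) hx0 hxc
        rw [hsucc] at h5
        push_cast at h5 ⊢
        simp only [Bool.false_eq_true, if_false] at hg'
        linarith
      · have hg' := hg true
        have h4 : (x, t0 + (s : ℤ)) + qq true true = (x + 1, t0 + ((s + 1 : ℕ) : ℤ)) := by
          simp [qq, add_assoc]
        rw [h4]
        have h5 := ih (h ++ [((x, t0 + (s : ℤ)), true, true)]) (s + 1) (s + 1) (x + 1)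
          (by omega) le_rfl (by omega) (by omega)
        rw [cnt_self] at h5
        rw [hsucc] at h1
        push_cast at h1 h5 ⊢
        simp only [if_true] at hg'
        nlinarith

open Classical in
theorem play_le (ω : Om) (k : ℕ) (x0 t0 c : ℤ) (n : ℕ) (hk : ¬ Even k)
    (hon : ∀ s : ℕ, s < n → on ω k (c, t0 + s))
    (hhigh : ∀ j > k, ∀ x : ℤ, x0 ≤ x → x ≤ c → ∀ s : ℕ, s < n → ¬ on ω j (x, t0 + s))
    (σ : Hi → ℤ × ℤ → Bool) (r : ℕ) :
    ∀ (h : Hi) (s a : ℕ) (x : ℤ), s + r = n → a ≤ s → x0 ≤ x → x ≤ c →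
      pl ω σ (strat2 c) r h (x, t0 + s) ≤
      - ((r : ℝ) - (c - x) - 2 * (((n : ℝ) - a) / 32 + ((c : ℝ) - x + 1) * (2 * (pr k : ℝ) ^ 2) - cnt k ω x (t0 + a) (t0 + s))) := by
  have hK : (0 : ℝ) ≤ 2 * (pr k : ℝ) ^ 2 := by positivity
  have hcnt := cnt_le' ω k t0
  induction r with
  | zero =>
    intro h s a x hs ha hx0 hxc
    have h1 := hcnt x a s ha
    have h2 : (x : ℝ) ≤ c := by exact_mod_cast hxc
    have h3 : (s : ℝ) = n := by exact_mod_cast (by omega : s = n)
    rw [h3] at h1
    simp only [pl]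
    rw [Nat.cast_zero]
    nlinarith [mul_nonneg (sub_nonneg.2 h2) hK]
  | succ r ih =>
    intro h s a x hs ha hx0 hxc
    have h1 := hcnt x a (s + 1) (by omega)
    have h1' := hcnt x a s ha
    have h2 : (x : ℝ) ≤ c := by exact_mod_cast hxc
    have h3 : (s : ℝ) + (r + 1) = n := by exact_mod_cast hs
    rcases eq_or_lt_of_le hxc with hxe | hxlt
    · subst hxe
      rw [play_at_column' ω k x0 t0 x n hk hon hhigh hx0 σ (r + 1) h s hs]
      push_cast
      have h4 : ((s : ℝ) - a) / 32 ≤ ((n : ℝ) - a) / 32 := by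
        have : (0 : ℝ) ≤ r := by positivity
        linarith
      nlinarith
    · have hsucc := cnt_succ k ω x (t0 + a) (t0 + s) (by omega)
      rw [add_assoc] at hsucc
      have hcast : (((s : ℕ) : ℤ) + 1) = ((s + 1 : ℕ) : ℤ) := by push_cast; ring
      rw [hcast] at hsucc
      set b : ℕ := if low k ω (x, t0 + s) then 1 else 0 with hb
      have hb01 : (0 : ℝ) ≤ b := by positivity
      rw [pl]
      have hi : ∀ i, strat2 c h (x, t0 + s) i = true := by
        intro i
        simp [strat2, hxlt.ne]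
      rw [hi]
      have hg : ∀ i : Bool, gg ω (x, t0 + s) i true ≤ - ((if i = true then (0 : ℝ) else 1) - 2 * b) := by
        intro i
        unfold gg
        by_cases hp : plus ω (x, t0 + s)
        · rw [if_pos hp]
          have hlow : low k ω (x, t0 + s) := by
            obtain ⟨l, hl, hl1, hl2⟩ := hp
            refine ⟨l, ?_, hl1⟩
            by_contra hlk
            rcases Nat.lt_or_ge k l with h5 | h5
            · exact hhigh l h5 x hx0 hxc s (by omega) hl1
            · have : l = k := by omega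
              exact hk (this ▸ hl)
          rw [hb, if_pos hlow]
          split_ifs <;> norm_num
        · rw [if_neg hp]
          by_cases hm : minus ω (x, t0 + s)
          · rw [if_pos hm]
            split_ifs <;> linarith
          · rw [if_neg hm]
            cases i <;> simp
      rcases hj : σ h (x, t0 + s) with _ | _
      · have hg' := hg false
        have h4 : (x, t0 + (s : ℤ)) + qq false true = (x, t0 + ((s + 1 : ℕ) : ℤ)) := by
          simp [qq, add_assoc]
        rw [h4]
        have h5 := ih (h ++ [((x, t0 + (s : ℤ)), false, true)]) (s + 1) a x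
          (by omega) (by omega) hx0 hxc
        rw [hsucc] at h5
        push_cast at h5 ⊢
        simp only [Bool.false_eq_true, if_false] at hg'
        linarith
      · have hg' := hg true
        have h4 : (x, t0 + (s : ℤ)) + qq true true = (x + 1, t0 + ((s + 1 : ℕ) : ℤ)) := by
          simp [qq, add_assoc]
        rw [h4]
        have h5 := ih (h ++ [((x, t0 + (s : ℤ)), true, true)]) (s + 1) (s + 1) (x + 1)
          (by omega) le_rfl (by omega) (by omega)
        rw [cnt_self] at h5
        rw [hsucc] at h1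
        push_cast at h1 h5 ⊢
        simp only [if_true] at hg'
        nlinarith

end Pool.Agent.Q240.PG
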