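import Pool.Agent.Q240.PG.Env

/-!
# The lines of the scale `k`
-/

namespace Pool.Agent.Q240.PG

open MeasureTheory Filter Topology Finset

/-- the active phases of the scale `k` -/
def act (k : ℕ) : Set (Gk k) := {a | a.1.val = a.2.val / md k ^ 2}

/-- the cell `z` belongs to a line of the scale `k` -/
def on (ω : Om) (k : ℕ) (z : ℤ × ℤ) : Prop := ω k + io k z ∈ act k

theorem on_tau (ω : Om) (k : ℕ) (z z' : ℤ × ℤ) : on (tau z ω) k z' ↔ on ω k (z + z') := by
  unfold on tau
  rw [io_add, add_assoc]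

theorem un_le (k : ℕ) (S : Finset (Gk k)) (n : ℕ) (h : S.card ≤ n) :
    un k (S : Set (Gk k)) ≤ (n : ENNReal) / ((md k : ENNReal) * (md k : ENNReal) ^ 3) := by
  rw [un_apply]
  gcongr

theorem Pm_coord (k : ℕ) (S : Set (Gk k)) (z : ℤ × ℤ) : Pm {ω | ω k + io k z ∈ S} = un k S := by
  have h1 : {ω : Om | ω k + io k z ∈ S} = Set.pi (({k} : Finset ℕ) : Set ℕ)
      (fun i => {a : Gk i | a + io i z ∈ {b : Gk i | ∃ h : i = k, (h ▸ b) ∈ S}}) := by
    ext ω
    simp
  unfold Pm
  rw [h1, Measure.infinitePi_pi _ (fun i _ => MeasurableSet.of_discrete), Finset.prod_singleton]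
  have h2 : {a : Gk k | a + io k z ∈ {b : Gk k | ∃ h : k = k, (h ▸ b) ∈ S}} = (fun a => a + io k z) ⁻¹' S := by
    ext a; simp
  rw [h2, un_shift]

/-- the probability that a cell belongs to a line of the scale `k` -/
theorem Pm_on (k : ℕ) (z : ℤ × ℤ) : Pm {ω | on ω k z} ≤ ENNReal.ofReal (1 / md k) := by
  classical
  have h1 := Pm_coord k (act k) z
  unfold on
  rw [h1]
  let S : Finset (Gk k) := Finset.univ.filter fun a => a ∈ act k
  have hS : act k = (S : Set (Gk k)) := by ext a; simp [S]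
  have hc : S.card ≤ md k ^ 3 := by
    have : S.card ≤ (Finset.univ : Finset (ZMod (md k ^ 3))).card := by
      refine Finset.card_le_card_of_injOn (fun a => a.2) (fun _ _ => Finset.mem_univ _) ?_
      intro a ha b hb hab
      have ha' : a.1.val = a.2.val / md k ^ 2 := (Finset.mem_filter.1 (Finset.mem_coe.1 ha)).2
      have hb' : b.1.val = b.2.val / md k ^ 2 := (Finset.mem_filter.1 (Finset.mem_coe.1 hb)).2
      have hab' : a.2 = b.2 := hab
      ext1
      · apply ZMod.val_injective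
        rw [ha', hb', hab']
      · exact hab'
    simpa [ZMod.card] using this
  rw [hS]
  refine (un_le k S _ hc).trans (le_of_eq ?_)
  have hm : (md k : ENNReal) ≠ 0 := by exact_mod_cast (md_pos k).ne'
  have hm' : (md k : ENNReal) ≠ ⊤ := ENNReal.natCast_ne_top _
  rw [one_div, ENNReal.ofReal_inv_of_pos (by exact_mod_cast md_pos k), ENNReal.ofReal_natCast]
  push_cast
  rw [mul_comm, ENNReal.div_eq_inv_mul, ENNReal.mul_inv (Or.inl (pow_ne_zero _ hm)) (Or.inl (ENNReal.pow_ne_top hm')),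
    mul_comm ((md k : ENNReal) ^ 3)⁻¹, mul_assoc, ENNReal.inv_mul_cancel (pow_ne_zero _ hm) (ENNReal.pow_ne_top hm'), mul_one]

/-- the beginnings of the blocks -/
def st (k : ℕ) : Set (Gk k) := {a | a.2.val % md k ^ 2 = 0}

theorem Pm_st (k : ℕ) (z : ℤ × ℤ) : Pm {ω | ω k + io k z ∈ st k} ≤ ENNReal.ofReal (1 / (md k : ℝ) ^ 2) := by
  classical
  rw [Pm_coord k (st k) z]
  let S : Finset (Gk k) := Finset.univ.filter fun a => a ∈ st k
  have hS : st k = (S : Set (Gk k)) := by ext a; simp [S]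
  have hc : S.card ≤ md k ^ 2 := by
    have : S.card ≤ ((Finset.univ : Finset (ZMod (md k))) ×ˢ (Finset.range (md k))).card := by
      refine Finset.card_le_card_of_injOn (fun a => (a.1, a.2.val / md k ^ 2)) ?_ ?_
      · intro a _
        simp only [Finset.coe_product, Finset.coe_univ, Set.mem_prod, Set.mem_univ, Finset.coe_range,
          Set.mem_Iio, true_and]
        rw [Nat.div_lt_iff_lt_mul (pow_pos (md_pos k) 2)]
        have := a.2.val_lt
        calc a.2.val < md k ^ 3 := this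
          _ = md k * md k ^ 2 := by ring
      · intro a ha b hb hab
        have ha' : a.2.val % md k ^ 2 = 0 := (Finset.mem_filter.1 (Finset.mem_coe.1 ha)).2
        have hb' : b.2.val % md k ^ 2 = 0 := (Finset.mem_filter.1 (Finset.mem_coe.1 hb)).2
        simp only [Prod.mk.injEq] at hab
        ext1
        · exact hab.1
        · apply ZMod.val_injective
          rw [← Nat.div_add_mod a.2.val (md k ^ 2), ← Nat.div_add_mod b.2.val (md k ^ 2), hab.2, ha', hb']
    simpa [ZMod.card, sq] using this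
  rw [hS]
  refine (un_le k S _ hc).trans (le_of_eq ?_)
  have hm : (md k : ENNReal) ≠ 0 := by exact_mod_cast (md_pos k).ne'
  have hm' : (md k : ENNReal) ≠ ⊤ := ENNReal.natCast_ne_top _
  rw [one_div, ENNReal.ofReal_inv_of_pos (by have := md_pos k; positivity), ENNReal.ofReal_pow (by positivity), ENNReal.ofReal_natCast]
  push_cast
  have e1 : (md k : ENNReal) * (md k : ENNReal) ^ 3 = (md k : ENNReal) ^ 2 * (md k : ENNReal) ^ 2 := by ring
  rw [e1, ENNReal.div_eq_inv_mul, ENNReal.mul_inv (Or.inl (pow_ne_zero _ hm)) (Or.inl (ENNReal.pow_ne_top hm')),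
    mul_assoc, ENNReal.inv_mul_cancel (pow_ne_zero _ hm) (ENNReal.pow_ne_top hm'), mul_one]

/-- the bad event of the scale `k` for the initial state `z` -/
def badEv (k : ℕ) (z : ℤ × ℤ) : Set Om :=
  (⋃ s ∈ Finset.range (hz k), {ω | ω k + io k (z.1, z.2 + s) ∈ st k}) ∪
    ⋃ j : ℕ, ⋃ _ : k < j, ⋃ c ∈ Finset.range (md k), ⋃ s ∈ Finset.range (hz k),
      {ω | on ω j (z.1 + c, z.2 + s)}

theorem Pm_bad (k : ℕ) (z : ℤ × ℤ) : Pm (badEv k z) ≤ ENNReal.ofReal (3 * (1 / 2) ^ k) := by
  have h1 : Pm (⋃ s ∈ Finset.range (hz k), {ω | ω k + io k (z.1, z.2 + s) ∈ st k}) ≤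
      ENNReal.ofReal ((1 / 2) ^ k) := by
    refine (measure_biUnion_finset_le _ _).trans ?_
    refine (Finset.sum_le_sum fun s _ => Pm_st k _).trans ?_
    rw [Finset.sum_const, Finset.card_range, nsmul_eq_mul, ← ENNReal.ofReal_natCast,
      ← ENNReal.ofReal_mul (by positivity)]
    apply ENNReal.ofReal_le_ofReal
    have := hz_small k
    rwa [mul_one_div]
  have h2 : ∀ j, k < j → Pm (⋃ c ∈ Finset.range (md k), ⋃ s ∈ Finset.range (hz k),
      {ω | on ω j (z.1 + c, z.2 + s)}) ≤ ENNReal.ofReal ((1 / 2) ^ j) := by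
    intro j hj
    refine (measure_biUnion_finset_le _ _).trans ?_
    refine (Finset.sum_le_sum fun c _ => (measure_biUnion_finset_le _ _).trans
      (Finset.sum_le_sum fun s _ => Pm_on j _)).trans ?_
    rw [Finset.sum_const, Finset.sum_const, Finset.card_range, Finset.card_range, nsmul_eq_mul,
      nsmul_eq_mul, ← ENNReal.ofReal_natCast, ← ENNReal.ofReal_natCast,
      ← ENNReal.ofReal_mul (by positivity), ← ENNReal.ofReal_mul (by positivity)]
    apply ENNReal.ofReal_le_ofReal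
    have := hz_high hj
    calc (md k : ℝ) * ((hz k : ℝ) * (1 / md j)) = (md k : ℝ) * hz k / md j := by ring
      _ ≤ _ := this
  have h3 : Pm (⋃ j : ℕ, ⋃ _ : k < j, ⋃ c ∈ Finset.range (md k), ⋃ s ∈ Finset.range (hz k),
      {ω | on ω j (z.1 + c, z.2 + s)}) ≤ ENNReal.ofReal (2 * (1 / 2) ^ k) := by
    have h4 : (⋃ j : ℕ, ⋃ _ : k < j, ⋃ c ∈ Finset.range (md k), ⋃ s ∈ Finset.range (hz k),
        {ω | on ω j (z.1 + c, z.2 + s)}) ⊆ ⋃ i : ℕ, (⋃ c ∈ Finset.range (md k), ⋃ s ∈ Finset.range (hz k),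
        {ω | on ω (k + i + 1) (z.1 + c, z.2 + s)}) := by
      refine Set.iUnion_subset fun j => Set.iUnion_subset fun hj => ?_
      obtain ⟨i, rfl⟩ := Nat.exists_eq_add_of_lt hj
      exact Set.subset_iUnion (fun i : ℕ => ⋃ c ∈ Finset.range (md k), ⋃ s ∈ Finset.range (hz k),
        {ω | on ω (k + i + 1) (z.1 + c, z.2 + s)}) i
    refine (measure_mono h4).trans ((measure_iUnion_le _).trans ?_)
    refine (ENNReal.tsum_le_tsum fun i => h2 (k + i + 1) (by omega)).trans ?_
    rw [← ENNReal.ofReal_tsum_of_nonneg (fun i => by positivity)]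
    · apply ENNReal.ofReal_le_ofReal
      have e : ∀ i : ℕ, (1 / 2 : ℝ) ^ (k + i + 1) = (1 / 2) ^ (k + 1) * (1 / 2) ^ i := by
        intro i; rw [← pow_add]; congr 1; ring
      simp_rw [e]
      rw [tsum_mul_left, tsum_geometric_two, pow_succ]
      have : (0 : ℝ) < (1 / 2) ^ k := by positivity
      linarith
    · have e : ∀ i : ℕ, (1 / 2 : ℝ) ^ (k + i + 1) = (1 / 2) ^ (k + 1) * (1 / 2) ^ i := by
        intro i; rw [← pow_add]; congr 1; ring
      simp_rw [e]
      exact summable_geometric_two.mul_left _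
  refine (measure_union_le _ _).trans ((add_le_add h1 h3).trans ?_)
  rw [← ENNReal.ofReal_add (by positivity) (by positivity)]
  apply ENNReal.ofReal_le_ofReal
  linarith

theorem ae_good (z : ℤ × ℤ) : ∀ᵐ ω ∂Pm, ∀ᶠ k in atTop, ω ∉ badEv k z := by
  refine ae_eventually_notMem ?_
  refine ne_top_of_le_ne_top ?_ (ENNReal.tsum_le_tsum fun k => Pm_bad k z)
  rw [← ENNReal.ofReal_tsum_of_nonneg (fun i => by positivity)]
  · exact ENNReal.ofReal_ne_top
  · exact summable_geometric_two.mul_left _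

end Pool.Agent.Q240.PG
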