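import Mathlib

/-!
# The moduli
-/

namespace Pool.Agent.Q240.PG

open Finset

/-- the products of the moduli -/
def pr : ℕ → ℕ
  | 0 => 1
  | k + 1 => pr k * (2 ^ (k + 6) * pr k ^ 4 + 1)

/-- the moduli -/
def md (k : ℕ) : ℕ := 2 ^ (k + 6) * pr k ^ 4 + 1

theorem pr_succ (k : ℕ) : pr (k + 1) = pr k * md k := rfl

theorem pr_pos (k : ℕ) : 0 < pr k := by
  induction k with
  | zero => simp [pr]
  | succ k ih => rw [pr_succ]; exact Nat.mul_pos ih (by unfold md; omega)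

theorem md_pos (k : ℕ) : 0 < md k := by unfold md; omega

instance (k : ℕ) : NeZero (md k) := ⟨(md_pos k).ne'⟩
instance (k : ℕ) : NeZero (md k ^ 3) := ⟨(pow_pos (md_pos k) 3).ne'⟩

theorem md_dvd_pr {j k : ℕ} (h : j < k) : md j ∣ pr k := by
  induction k with
  | zero => omega
  | succ k ih =>
    rw [pr_succ]
    rcases Nat.lt_succ_iff_lt_or_eq.1 h with h | h
    · exact (ih h).mul_right _
    · subst h; exact dvd_mul_left _ _

theorem md_coprime {j k : ℕ} (h : j < k) : Nat.Coprime (md j) (md k) := by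
  have h1 : Nat.Coprime (pr k) (md k) := by
    unfold md
    have : 2 ^ (k + 6) * pr k ^ 4 = pr k * (2 ^ (k + 6) * pr k ^ 3) := by ring
    rw [this]
    simp
  exact h1.coprime_dvd_left (md_dvd_pr h)

theorem md_coprime' {j k : ℕ} (h : j ≠ k) : Nat.Coprime (md j) (md k) := by
  rcases lt_or_gt_of_ne h with h | h
  · exact md_coprime h
  · exact (md_coprime h).symm

theorem md_ge (k : ℕ) : 2 ^ (k + 6) ≤ md k := by
  unfold md
  have : 1 ≤ pr k ^ 4 := Nat.one_le_pow _ _ (pr_pos k)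
  nlinarith [Nat.zero_le (2 ^ (k + 6))]

theorem md_ge' (k : ℕ) : 2 ^ (k + 6) * pr k ^ 4 ≤ md k := by
  unfold md; omega

theorem one_le_md (k : ℕ) : 1 ≤ md k := md_pos k

theorem two_le_md (k : ℕ) : 2 ≤ md k := by
  have := md_ge k
  have h2 : 2 ^ 1 ≤ 2 ^ (k + 6) := Nat.pow_le_pow_right (by norm_num) (by omega)
  omega

/-- the sum of the squares of the moduli -/
theorem sum_sq (k : ℕ) : ∑ j ∈ range k, md j ^ 2 + 2 ≤ 2 * pr k ^ 2 := by
  induction k with
  | zero => simp [pr]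
  | succ k ih =>
    rw [sum_range_succ, pr_succ]
    have h1 := two_le_md k
    have h2 : 1 ≤ pr k ^ 2 := Nat.one_le_pow _ _ (pr_pos k)
    have h3 : 4 ≤ md k ^ 2 := by nlinarith
    have h4 : (pr k * md k) ^ 2 = pr k ^ 2 * md k ^ 2 := by ring
    rw [h4]
    nlinarith [Nat.mul_le_mul h2 h3, Nat.mul_le_mul_right (md k ^ 2) h2,
      Nat.mul_le_mul_left (pr k ^ 2) h3]

theorem sum_inv (k : ℕ) : ∑ j ∈ range k, (1 : ℝ) / md j ≤ 1 / 32 := by
  have h1 : ∀ j, (1 : ℝ) / md j ≤ (1 / 64) * (1 / 2) ^ j := by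
    intro j
    have h2 : (2 : ℝ) ^ (j + 6) ≤ md j := by exact_mod_cast md_ge j
    calc (1 : ℝ) / md j ≤ 1 / 2 ^ (j + 6) := by
          apply one_div_le_one_div_of_le (by positivity) h2
      _ = (1 / 64) * (1 / 2) ^ j := by
          rw [pow_add, one_div_pow]; norm_num
  calc ∑ j ∈ range k, (1 : ℝ) / md j ≤ ∑ j ∈ range k, (1 / 64) * (1 / 2) ^ j :=
        sum_le_sum fun j _ => h1 j
    _ = (1 / 64) * ∑ j ∈ range k, (1 / 2 : ℝ) ^ j := by rw [mul_sum]
    _ ≤ (1 / 64) * 2 := by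
        gcongr
        have := geom_sum_eq (x := (1 / 2 : ℝ)) (by norm_num) k
        rw [this]
        have h5 : (0 : ℝ) ≤ (1 / 2) ^ k := by positivity
        norm_num
        linarith
    _ = 1 / 32 := by norm_num

/-- the horizon of the scale `k` -/
def hz (k : ℕ) : ℕ := 64 * md k * pr k ^ 2

theorem hz_pos (k : ℕ) : 0 < hz k := by
  unfold hz
  have := md_pos k
  have := pr_pos k
  positivity

theorem hz_ge (k : ℕ) : k ≤ hz k := by
  have h1 := md_ge k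
  have h2 : 1 ≤ pr k ^ 2 := Nat.one_le_pow _ _ (pr_pos k)
  have h3 : k < 2 ^ k := Nat.lt_two_pow_self
  have h4 : 2 ^ k ≤ 2 ^ (k + 6) := Nat.pow_le_pow_right (by norm_num) (by omega)
  unfold hz
  nlinarith [Nat.mul_le_mul_left (md k) h2]

/-- the horizon is short with respect to the blocks -/
theorem hz_small (k : ℕ) : (hz k : ℝ) / (md k : ℝ) ^ 2 ≤ (1 / 2) ^ k := by
  have h1 : (2 : ℝ) ^ (k + 6) * (pr k : ℝ) ^ 4 ≤ md k := by exact_mod_cast md_ge' k
  have hm : (0 : ℝ) < md k := by exact_mod_cast md_pos k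
  have hp : (1 : ℝ) ≤ pr k := by exact_mod_cast pr_pos k
  rw [div_le_iff₀ (by positivity)]
  unfold hz
  push_cast
  have h2 : (pr k : ℝ) ^ 2 ≤ (pr k : ℝ) ^ 4 := pow_le_pow_right₀ hp (by norm_num)
  have h3 : (1 / 2 : ℝ) ^ k * (md k : ℝ) ^ 2 ≥ (1 / 2 : ℝ) ^ k * (md k * (2 ^ (k + 6) * (pr k : ℝ) ^ 4)) := by
    rw [sq]
    gcongr
  have h4 : (1 / 2 : ℝ) ^ k * (md k * (2 ^ (k + 6) * (pr k : ℝ) ^ 4)) = 64 * md k * (pr k : ℝ) ^ 4 := by
    rw [pow_add, one_div_pow]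
    field_simp
    ring
  have h5 : 64 * (md k : ℝ) * (pr k : ℝ) ^ 2 ≤ 64 * md k * (pr k : ℝ) ^ 4 := by gcongr
  linarith

/-- higher scales are rare -/
theorem hz_high {j k : ℕ} (h : k < j) :
    (md k : ℝ) * hz k / md j ≤ (1 / 2) ^ j := by
  have h1 : (2 : ℝ) ^ (j + 6) * (pr j : ℝ) ^ 4 ≤ md j := by exact_mod_cast md_ge' j
  have hm : (0 : ℝ) < md j := by exact_mod_cast md_pos j
  have hp : (1 : ℝ) ≤ pr k := by exact_mod_cast pr_pos k
  have hm1 : (1 : ℝ) ≤ md k := by exact_mod_cast md_pos k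
  have h2 : (pr k : ℝ) * md k ≤ pr j := by
    have h3 : pr (k + 1) ∣ pr j := by
      clear h1 hm
      obtain ⟨i, rfl⟩ := Nat.exists_eq_add_of_lt h
      have : ∀ i, pr (k + 1) ∣ pr (k + 1 + i) := by
        intro i
        induction i with
        | zero => simp
        | succ i ih =>
          rw [show k + 1 + (i + 1) = (k + 1 + i) + 1 by ring, pr_succ]
          exact ih.mul_right _
      have h4 := this i
      rwa [show k + 1 + i = k + i + 1 by ring] at h4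
    have h4 := Nat.le_of_dvd (pr_pos j) h3
    rw [pr_succ] at h4
    exact_mod_cast h4
  rw [div_le_iff₀ hm]
  unfold hz
  push_cast
  have h3 : (1 / 2 : ℝ) ^ j * md j ≥ (1 / 2 : ℝ) ^ j * (2 ^ (j + 6) * ((pr k : ℝ) * md k) ^ 4) := by
    have : (2 : ℝ) ^ (j + 6) * ((pr k : ℝ) * md k) ^ 4 ≤ md j := by
      refine le_trans ?_ h1
      gcongr
    gcongr
  have h4 : (1 / 2 : ℝ) ^ j * (2 ^ (j + 6) * ((pr k : ℝ) * md k) ^ 4) = 64 * ((pr k : ℝ) * md k) ^ 4 := by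
    rw [pow_add, one_div_pow]
    field_simp
    norm_num
  have h5 : (md k : ℝ) * (64 * md k * (pr k : ℝ) ^ 2) ≤ 64 * ((pr k : ℝ) * md k) ^ 4 := by
    have h6 : ((pr k : ℝ) * md k) ^ 2 ≤ ((pr k : ℝ) * md k) ^ 4 := by
      apply pow_le_pow_right₀ _ (by norm_num)
      nlinarith
    nlinarith
  linarith

end Pool.Agent.Q240.PG
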